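import Mathlib
import Pool.Agent.L7h25.TP.FinB

/-!
# Alternating fibre powers over `F_2(X)`

Let `α : B → W` be a surjection of finite groups whose kernel is perfect; no realization of `B` is
assumed. For a homomorphism `χ : W → {1, -1}` let `TwPow α χ n` be the group of all `(x, w)`, `x` in
the wreath product `B ≀ S_n`, `w` in `W`, such that all coordinates of `x` are mapped to `w` by `α`
and the sign of the permutation of `x` is `χ w`. It is an extension of `W` by `(ker α) ≀ A_n`.

1. For infinitely many `n` the group `TwPow α 1 n` occurs over `F_2(X)` if and only if `W` does, and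
   all embedding problems with the projection `TwPow α 1 n → W`, over any field of characteristic
   `2`, have regular solutions (and proper ones if the field is Hilbertian, e.g. `F_2(X)`). For
   example `W = 1`: the groups `G ≀ A_n` for every finite perfect group `G` and infinitely many `n`.
2. For all large primes `q ≡ -1` modulo `48 r` (`r` odd, `r ≥ ((72 |ker α| + 2)!) ^ 3`),
   `n = q + 6 r + 1` and all characters `χ`: the group `TwPow α χ n` occurs over `F_2(X)` if some
   subgroup `D` of `B` with `α(D) = W` does; the embedding problems with the projection to `W` are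
   solvable if those with `α` are weakly solvable; in particular the conclusions of 1. hold for all
   `χ` if `α` splits.

The same for `k(X)`, `k` any field of characteristic `2`, for all Hilbertian fields of characteristic
`2`, and for regular realizations over all fields of characteristic `2`; `n` does not depend on them.

This is the theorem of the starting file `AlternatingFibrePowers` for the prime `2` (there `p` is
odd: the sign of the monodromy group was computed from the discriminant, which gives nothing in
characteristic `2`). Here it is computed from the discriminant of a lift to Witt vectors modulo `8`.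
-/

set_option autoImplicit false

namespace Pool.Agent.Results.MP_7f581e_nt.CharTwoFibrePowers

open Pool.Agent.N70.EP.Voc Pool.Agent.N70.PP.Voc

/-- If an embedding problem with `α : B → W = Gal(L/K)`, `K` a field of characteristic `2`, has a
weak solution, then the one with `π : E → W = Gal(L/K)` is solvable. -/
def SolvableIfWeak {B E W : Type} [Group B] [Group E] [Group W] (α : B →* W)
    (π : E →* W) : Prop :=
  ∀ (K L : Type) [Field K] [CharP K 2] [Field L] [Algebra K L] [FiniteDimensional K L]
    [IsGalois K L] (ε : (L ≃ₐ[K] L) ≃* W), WeakSolutionOver (ε.symm.toMonoidHom.comp α) K →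
    Solvable (ε.symm.toMonoidHom.comp π)

/-- The first theorem for the number `n`. -/
def First {B W : Type} [Group B] [Group W] (α : B →* W) (χ : W →* ℤˣ) (n : ℕ) : Prop :=
  OccursIff 2 (TwPow α χ n) W ∧ SolvableAll 2 (twPr α χ n)

/-- The second theorem for the number `n`. -/
def Second {B W : Type} [Group B] [Group W] (α : B →* W) (χ : W →* ℤˣ) (n : ℕ) : Prop :=
  (∀ D : Subgroup B, (∀ w : W, ∃ d ∈ D, α d = w) → OccursIf 2 (TwPow α χ n) D) ∧
    SolvableIfWeak α (twPr α χ n) ∧ ((∃ s : W →* B, ∀ w, α (s w) = w) → First α χ n)

theorem result (B W : Type) [Group B] [Finite B] [Group W] [Finite W] (α : B →* W)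
    (hα : Function.Surjective α) (hperf : commutator α.ker = ⊤) :
    (∀ n₀ : ℕ, ∃ n ≥ n₀, First α 1 n) ∧
    ∀ r : ℕ, Odd r → ((72 * Nat.card α.ker + 2).factorial) ^ 3 ≤ r →
      ∃ q₀ : ℕ, ∀ q ≥ q₀, q.Prime → 48 * r ∣ q + 1 → ∀ χ : W →* ℤˣ,
        Second α χ (q + 6 * r + 1) :=
  ⟨Pool.Agent.L7h25.TP.fib_two α hα hperf, Pool.Agent.L7h25.TP.fib_all8 α hα hperf⟩

end Pool.Agent.Results.MP_7f581e_nt.CharTwoFibrePowers
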