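import Mathlib
import Pool.Agent.L7h25.FP.Bridge

/-!
# Free pro-`C` Galois groups over `F_p(X)`

Let `p` be a prime, `S` a class of finite simple groups closed under isomorphisms which satisfy
`FactorC p` (the groups of order `p`, the alternating groups `A_n`, `n ≥ 5`, `n ≠ 6`, the classical
groups and groups of Lie type in characteristic `p` described in `LieTypeFactors`, the complete
simple groups which occur regularly over `F_p`), and `C` the class of the finite groups with a
composition series all of whose factors are in `S` (`CompIn S`).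

All definitions are in this file and in `Pool/Agent/L7h25/FP/VocF.lean`,
`Pool/Agent/L7h25/LG/Voc.lean`, `Pool/Agent/L7h25/LG/VocB.lean`, `Pool/Agent/L7h25/AN/VocA.lean`,
`Pool/Agent/Y60/DCF/Defs.lean`, `Pool/Agent/Y60/DC/Def.lean`, `Pool/Agent/TH15/IGP/Tow.lean` and
`Pool/Agent/N70/PP/Voc.lean`.

1. `RatFuncTheorem`: `K = k(X)`, `k` a countable field of characteristic `p`, for example
   `K = F_p(X)`. Let `K^C` (`maxPro S K K_sep`) be the maximal pro-`C` extension of `K`, the
   compositum of all finite Galois extensions with groups in `C`. Then `Gal(K^C/K)` is a free pro-`C`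
   group of countable rank (`IsFreePro`). In particular there are `σ_1, σ_2, ...` in `Gal(K^C/K)`
   such that for every group `B` in `C` and all generators `b_1, ..., b_n` of `B` there is exactly
   one epimorphism of `Gal(K^C/K)` to `B`, that is, a Galois extension of `K` with group `B`, with
   `σ_i ↦ b_i` for `i ≤ n` and `σ_i ↦ 1` for `i > n`.
2. `HilbertianTheorem`: the same for all countable Hilbertian fields `K` of characteristic `p`, and
   more generally for every finite Galois extension `L` of `K`: let `L^C` (`maxExt S L`) be the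
   compositum of all finite Galois extensions `M` of `K` with `M ⊇ L` and `Gal(M/L)` in `C`. Then for
   every sequence `γ` of generators of `Gal(L/K)`, almost all of them `1`, `Gal(L^C/K)` is the free
   extension of `Gal(L/K)` by pro-`C` groups with respect to `γ` (`IsFree`).
3. `ComparisonTheorem`: the profinite group `Gal(L^C/K)` only depends on the finite group `Gal(L/K)`
   and on `C`, not on `K` and `L`, not even on `p` (if `S` satisfies `FactorC p` for several `p`, for
   example if `S` consists of alternating groups).
4. `TowerTheorem`: all Hilbertian fields `K` of characteristic `p`, countable or not: if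
   `Gal(L/K) = W 0 ← W 1 ← W 2 ← ...` is any sequence of homomorphisms in the class `Chain p` of
   `LieTypeFactors` (for example epimorphisms with kernels in `C`, split epimorphisms with finite
   abelian kernels), then `L` is contained in a Galois extension of `K` whose group is the inverse
   limit of the `W i`, compatibly with the action on `L`.
-/

set_option autoImplicit false

open Pool.Agent.L7h25.LG (FactorC Chain)
open Pool.Agent.N70.PP.Voc (Hilbertian)
open Pool.Agent.TH15.IGP (Lim)
open Pool.Agent.L7h25.FP.V

namespace Pool.Agent.Results.MP_7f581e_nt.FreeProfinite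

/-- The maximal pro-`C` Galois group of `k(X)` is free of countable rank: `Ω` is a separable closure
of `k(X)`, that is, `Ω/k(X)` is Galois and `Ω` is separably closed. -/
def RatFuncTheorem (p : ℕ) (S : ∀ (T : Type) [Group T], Prop) : Prop :=
  ∀ (k Ω : Type) [Field k] [CharP k p] [Countable k] [Field Ω] [Algebra (RatFunc k) Ω]
    [IsGalois (RatFunc k) Ω] [IsSepClosed Ω], IsFreePro S (maxPro S (RatFunc k) Ω)

/-- The theorem for countable Hilbertian fields `K`, `Ω` a separable closure of `K`. -/
def HilbertianTheorem (p : ℕ) (S : ∀ (T : Type) [Group T], Prop) : Prop :=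
  ∀ (K Ω : Type) [Field K] [CharP K p] [Countable K] [Field Ω] [Algebra K Ω] [IsGalois K Ω]
    [IsSepClosed Ω], Hilbertian K →
    IsFreePro S (maxPro S K Ω) ∧
    ∀ (L : IntermediateField K Ω) [FiniteDimensional K L] [IsGalois K L]
      (γ : ℕ → GK L), Marked γ → IsFree S L (maxExt S L) γ

/-- The groups `Gal(L^C/K)`, `Gal(L'^C/K')` are isomorphic if `Gal(L/K)`, `Gal(L'/K')` are. -/
def ComparisonTheorem (p p' : ℕ) (S : ∀ (T : Type) [Group T], Prop) : Prop :=
  ∀ (K Ω K' Ω' : Type) [Field K] [CharP K p] [Countable K] [Field Ω] [Algebra K Ω]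
    [IsGalois K Ω] [IsSepClosed Ω] [Field K'] [CharP K' p'] [Countable K'] [Field Ω']
    [Algebra K' Ω'] [IsGalois K' Ω'] [IsSepClosed Ω'], Hilbertian K → Hilbertian K' →
    ∀ (L : IntermediateField K Ω) [FiniteDimensional K L] [IsGalois K L]
      (L' : IntermediateField K' Ω') [FiniteDimensional K' L'] [IsGalois K' L']
      (e : GK L ≃* GK L'), SameGroups (maxExt S L) (maxExt S L') e

/-- Infinite towers of embedding problems. -/
def TowerTheorem (p : ℕ) [Fact p.Prime] : Prop :=
  ∀ (K Ω : Type) [Field K] [CharP K p] [Field Ω] [Algebra K Ω] [IsGalois K Ω] [IsSepClosed Ω],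
    Hilbertian K →
    ∀ (W : ℕ → Type) [∀ i, Group (W i)] (π : ∀ i, W (i + 1) →* W i), (∀ i, Chain p (π i)) →
      ∀ (L : IntermediateField K Ω) [FiniteDimensional K L] [IsGalois K L]
        (e : W 0 ≃* GK L), SolvesTower L W (Lim π) e

open Pool.Agent.L7h25.FP in
theorem result (p : ℕ) [Fact p.Prime] :
    (∀ S : (∀ (T : Type) [Group T], Prop), V.IsoClosed S →
      (∀ (T : Type) [Group T], S T → FactorC p T) →
      RatFuncTheorem p S ∧ HilbertianTheorem p S ∧
      ∀ (p' : ℕ) [Fact p'.Prime], (∀ (T : Type) [Group T], S T → FactorC p' T) →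
        ComparisonTheorem p p' S) ∧
    TowerTheorem p := by
  refine ⟨fun S hiso hSp => ⟨?_, ?_, ?_⟩, ?_⟩
  · intro k Ω _ _ _ _ _ _ _
    exact bridge_pro (isFreePro_ratFunc (p := p) hiso hSp k Ω)
  · intro K Ω _ _ _ _ _ _ _ hK
    refine ⟨bridge_pro (isFreePro_hilb (p := p) hiso hSp hK), ?_⟩
    intro L _ _ γ hγ
    rw [maxExt_eq]
    exact bridge_free (isFree_hilb (p := p) hiso hSp hK L γ hγ)
  · intro p' _ hSp' K Ω K' Ω' _ _ _ _ _ _ _ _ _ _ _ _ _ _ hK hK' L _ _ L' _ _ e
    rw [maxExt_eq, maxExt_eq]
    exact bridge_same (sameGroups_hilb (p := p) (p' := p') hiso hSp hSp' hK hK' L L' e)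
  · intro K Ω _ _ _ _ _ _ hK W _ π h L _ _ e
    exact tower_sep (p := p) hK W π h L e

end Pool.Agent.Results.MP_7f581e_nt.FreeProfinite
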