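import Mathlib
import Pool.Agent.L7h25.TP.VocM
import Pool.Agent.L7h25.TP.KerM

/-!
# Normal subgroups `G ≀ A_n` and others over `F_p(X)`, all primes `p`

Let `p` be a prime, `p = 2` included. Below, `G` is a nontrivial finite perfect group with trivial
centre (no realization of `G` is assumed), and `n` is in `NumbersM κ p G`: for `p = 2` this means
`n = q + 6 r + 1` where `r` is odd, `r ≥ ((72 |G| + 2)!) ^ 3` and `q` is a prime with `q ≡ -1` modulo
`48 r`, larger than the bound `κ G r`; for odd `p` one has `n = q + 6 r p + 1`, `q ≡ -1` modulo
`12 r p` (there are infinitely many such `n`). `X` is a group with a normal subgroup `N` of finite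
index, the extension `1 → N → X → X / N → 1` is arbitrary, and `P` is any normal `p`-subgroup of
`X / N`.

1. Let `N ≃ G ≀ A_n`, `Y = (X / N) / P`. There are a finite group `Q` and a surjection `Q → Y` whose
   kernel is contained in the Frattini subgroup of `Q`, nilpotent, of order prime to `p` and dividing
   `|G|` (with prime divisors dividing `|Y|`), such that `X` occurs over `F_p(X)` if `Q` does. So if
   `Y` is solvable, `X` occurs over `F_p(X)` if all finite solvable groups do (the theorem of
   Shafarevich). If no prime other than `p` divides both `|Y|` and `|G|`, then `X` occurs over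
   `F_p(X)` if and only if `Y` does. If all Sylow subgroups of `Y` are cyclic, `X` occurs over
   `F_p(X)`. All embedding problems with kernel `G ≀ A_n` over fields with projective absolute Galois
   group (e.g. finite fields) have regular solutions.
2. Let `T` be in the smallest class `KernelsM κ p` containing the `G ≀ A_n` with `Inn G` complemented
   in `Aut G`, the `G ≀ S_n` (`G` centreless, `Inn G` complemented, not necessarily perfect,
   `n ≥ ((3|G|+2)!)^3`), the nonabelian simple groups with `FactorC p T` (alternating groups `A_n`,
   `n ≥ 5`, `n ≠ 6`, classical groups and groups of Lie type in characteristic `p` with rational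
   twists), the complete groups which occur regularly over `F_p`, and closed under direct products,
   direct factors, characteristic extensions and `T ↦ T ≀ S_n`. If `N ≃ T`, then `X` occurs over
   `F_p(X)` if and only if `(X / N) / P` does; and all embedding problems with kernel `T` over fields
   `K` of characteristic `p` have regular solutions over `K(t)`, and proper ones if `K` is
   Hilbertian.

The same for `k(X)`, `k` any field of characteristic `p`, for all Hilbertian fields of characteristic
`p`, and for regular realizations over all fields of characteristic `p`.

For odd `p` the first part and the second part without the simple groups are the theorem of the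
starting file `AlternatingKernels`; the case `p = 2` is new.
-/

set_option autoImplicit false

namespace Pool.Agent.Results.MP_7f581e_nt.KernelsAllPrimes

open Pool.Agent.N70.EP.Voc Pool.Agent.N70.PP.Voc Pool.Agent.L7h25.TP

theorem result (p : ℕ) [Fact p.Prime] : ∃ κ : (∀ (G : Type) [Group G], ℕ → ℕ),
    (∀ (G : Type) [Group G], Centreless G → commutator G = ⊤ → ∀ n ∈ NumbersM κ p G,
      GeneralTheorem p G (AltWreath G n)) ∧
    ∀ (T : Type) [Group T], KernelsM κ p T → KernelTheorem p T := by
  obtain ⟨κ, hκ⟩ := Pool.Agent.L7h25.TP.exists_kappaM p
  refine ⟨κ, fun G _ hG hP n hn => Pool.Agent.N70.PP.generalTheorem_of G hG n (hκ G hG hP n hn),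
    fun T _ hT => ?_⟩
  obtain ⟨h1, -, h2⟩ := Pool.Agent.L7h25.TP.kernelsM_main κ hκ T hT
  exact Pool.Agent.N70.PP.kernelTheorem_of h1 h2

end Pool.Agent.Results.MP_7f581e_nt.KernelsAllPrimes
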