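import Mathlib
import Pool.Agent.L7h25.LG.Main

/-!
# Galois groups over `κ(X)` in characteristic `p`: factors of Lie type and alternating factors

All definitions are in the files `Pool/Agent/L7h25/LG/Voc.lean`, `Pool/Agent/L7h25/LG/VocB.lean`,
`Pool/Agent/L7h25/AN/VocA.lean`, `Pool/Agent/Y60/DCF/Defs.lean`, `Pool/Agent/Y60/DC/Def.lean` and
`Pool/Agent/N70/PP/Voc.lean`:

* `IsRatGroup p η`: `η` is an invertible matrix with entries in `F_p(y_1, ..., y_N)` generating this
  field, and for every field `B` of characteristic `p` the matrices in `GL_m(B)` whose entries satisfy
  all relations between the entries of `η` form a group: the points of a linear algebraic group over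
  `F_p` which is a rational variety (`Pt η g`: `g` is a point).
* `RationalTwists p η w`: the group `C` acts on the algebraic group by the conjugations with the
  matrices `w x` in `GL_m(F_p)`, and all its forms twisted by homomorphisms of the Galois groups of
  finite Galois extensions of infinite fields of characteristic `p` to `C` are rational varieties.
* `IsLieType p T`: `T` is a quotient of the group of points over `F_p` of such a group, and `C` maps
  isomorphically onto a complement of the inner automorphisms in `Aut T`.
* `FactorC p T`: `T` satisfies `FactorB p T` (it has order `p`, or is alternating `A_n`, `n ≥ 5`,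
  `n ≠ 6`, or classical in characteristic `p`, or a complete simple group which occurs regularly over
  `F_p`), or is a nonabelian simple group with `IsLieType p T`.
* `CompIn (FactorC p) N`: `N` has a finite composition series all of whose factors are of this kind.
* `Chain p π`: the smallest class of homomorphisms `π : W' → W` of groups which contains all
  epimorphisms, split or not, with a finite kernel `N` such that `CompIn (FactorC p) N`, all `π` with
  a homomorphic section and a finite abelian kernel, the projections `A^k ⋊ W → W` where `A` occurs
  regularly over `F_p` and `W` acts through a homomorphism `W → A ≀ S_k`, all `π` with `LieStep p π`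
  (the projections `G(F_p) ⋊ W → W` where `W` acts on the rational algebraic group `G` through `C` as
  above), and is closed under composition and under quotients.
* `OccursIff p X Y`: `X` and `Y` occur over the same rational function fields `k(X)`, `k` any field of
  characteristic `p`, over the same Hilbertian fields of characteristic `p`, and regularly over the
  same fields of characteristic `p`.

The theorem, for every prime `p`: if `π : X → Y` is in the class `Chain p` and `Y` is finite, then
`X` and `Y` occur over the same fields of these three kinds.

In particular, `X` and `X / N` occur over the same of these fields if all composition factors of the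
normal subgroup `N` of the finite group `X` satisfy `FactorC p` (`normal_case`), every finite group
all of whose composition factors satisfy `FactorC p` occurs over `F_p(X)` (`composition_case`), and if
the question has a positive answer for the finite groups without nontrivial normal subgroups `N` as
above, it has one for all finite groups (`reduction`).
-/

set_option autoImplicit false

open Pool.Agent.L7h25.LG (FactorC Chain)
open Pool.Agent.Y60.DC (CompIn)
open Pool.Agent.N70.PP.Voc (Occurs OccursIff OccursAll)

namespace Pool.Agent.Results.MP_7f581e_nt.LieTypeFactors

/-- The case of a normal subgroup `N`. -/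
theorem normal_case (p : ℕ) [Fact p.Prime] (X : Type) [Group X] [Finite X] (N : Subgroup X)
    [N.Normal] (h : CompIn (FactorC p) N) : OccursIff p X (X ⧸ N) := by
  refine Chain.occursIff (π := QuotientGroup.mk' N) (Chain.kernel _
    (QuotientGroup.mk'_surjective N) inferInstance ?_)
  rw [QuotientGroup.ker_mk']
  exact h

/-- The case of a finite group `X` all of whose composition factors are allowed. -/
theorem composition_case (p : ℕ) [Fact p.Prime] (X : Type) [Group X] [Finite X]
    (h : CompIn (FactorC p) X) :
    ∃ (L : Type) (_ : Field L) (_ : Algebra (RatFunc (ZMod p)) L),
        FiniteDimensional (RatFunc (ZMod p)) L ∧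
        IsGalois (RatFunc (ZMod p)) L ∧
        Nonempty ((L ≃ₐ[RatFunc (ZMod p)] L) ≃* X) :=
  (Pool.Agent.L7h25.LG.occursAll_of_compInL X h).1 (ZMod p)

/-- The reduction to groups without normal subgroups of this kind. -/
theorem reduction (p : ℕ) [Fact p.Prime]
    (h : ∀ (X : Type) [Group X] [Finite X],
      (∀ (N : Subgroup X) [N.Normal], CompIn (FactorC p) N → N = ⊥) →
        Occurs (RatFunc (ZMod p)) X) :
    ∀ (n : ℕ) (X : Type) [Group X] [Finite X], Nat.card X = n → Occurs (RatFunc (ZMod p)) X := by
  intro n
  induction n using Nat.strong_induction_on with
  | _ n ih =>
    intro X _ _ hn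
    by_cases hN : ∃ (N : Subgroup X) (_ : N.Normal), CompIn (FactorC p) N ∧ N ≠ ⊥
    · obtain ⟨N, hN1, hN2, hN3⟩ := hN
      refine ((normal_case p X N hN2).1 (ZMod p)).2 ?_
      refine ih (Nat.card (X ⧸ N)) ?_ (X ⧸ N) rfl
      have h1 := Subgroup.card_eq_card_quotient_mul_card_subgroup N
      have h2 : Nat.card N ≠ 1 := fun h3 => hN3 (Subgroup.card_eq_one.1 h3)
      have h3 : 0 < Nat.card (X ⧸ N) := Nat.card_pos
      have h4 : 0 < Nat.card N := Nat.card_pos
      have h5 : 2 ≤ Nat.card N := by omega
      rw [← hn, h1]
      nlinarith
    · refine h X fun N _ h1 => ?_
      by_contra h2
      exact hN ⟨N, inferInstance, h1, h2⟩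

end Pool.Agent.Results.MP_7f581e_nt.LieTypeFactors

theorem Pool.Agent.Results.MP_7f581e_nt.LieTypeFactors.result :
    ∀ (p : ℕ) [Fact p.Prime] (X Y : Type) [Group X] [Group Y] [Finite Y] (π : X →* Y),
      Chain p π → OccursIff p X Y := by
  intro p _ X Y _ _ _ π h
  exact h.occursIff
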